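import Pool.Agent.J4H95.SP.Def

/-!
Project SP (helper95), piece COMP: substituting trees of OR and NOT gates into a circuit, with an OR over branches.
-/

set_option autoImplicit false

namespace Pool.Agent.J4H21.SP

open Finset Pool.Agent.J4H64.SS Pool.Agent.J4H95.SP

/-- numbering along a rank -/
theorem numbering {G : Type} [Fintype G] (ρ : G → ℕ) :
    ∃ e : G ≃ Fin (Fintype.card G), ∀ a b, ρ a < ρ b → e a < e b := by
  classical
  let φ : G → ℕ ×ₗ Fin (Fintype.card G) := fun g => toLex (ρ g, Fintype.equivFin G g)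
  have hφ : Function.Injective φ := by
    intro a b h
    have h1 := congrArg (fun p => (ofLex p).2) h
    exact (Fintype.equivFin G).injective h1
  letI : LinearOrder G := LinearOrder.lift' φ hφ
  refine ⟨(Fintype.orderIsoFinOfCardEq G rfl).symm.toEquiv, fun a b hab => ?_⟩
  have h1 : a < b := by
    show φ a < φ b
    exact Prod.Lex.toLex_lt_toLex.2 (Or.inl hab)
  exact (Fintype.orderIsoFinOfCardEq G rfl).symm.lt_iff_lt.2 h1

/-- the gate equations -/
def Eqs {I G : Type} (kind : G → Fin 3) (pI : G → Finset I) (pG : G → Finset G) (x : I → Bool) (v : G → Bool) : Prop :=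
  ∀ j : G,
    (kind j = 0 → (v j = true ↔ ((∃ i ∈ pI j, x i = true) ∨ ∃ k ∈ pG j, v k = true))) ∧
    (kind j = 1 → (v j = true ↔ ((∀ i ∈ pI j, x i = true) ∧ ∀ k ∈ pG j, v k = true))) ∧
    (kind j = 2 → (v j = true ↔ ¬ ((∀ i ∈ pI j, x i = true) ∧ ∀ k ∈ pG j, v k = true)))

theorem acc_of_val {I : Type} [Fintype I] (C : Circ I) (x : I → Bool) (v : Fin C.m → Bool) (h : C.Val x v) :
    C.Acc x ↔ v C.o = true := by
  constructor
  · rintro ⟨v', hv', ho⟩
    rw [← C.net_val x v h, C.net_val x v' hv']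
    exact ho
  · intro ho
    exact ⟨v, h, ho⟩

/-- circuits from any finite type of gates with a rank -/
theorem mk {I G : Type} [Fintype I] [Fintype G] (kind : G → Fin 3) (pI : G → Finset I) (pG : G → Finset G) (o : G)
    (ρ : G → ℕ) (hρ : ∀ g, ∀ k ∈ pG g, ρ k < ρ g) :
    ∃ C : Circ I, C.m = Fintype.card G ∧
      ((∀ g, kind g = 2 → (pI g).card + (pG g).card = 1) → (∀ g, 1 ≤ (pI g).card + (pG g).card) → C.WF) ∧
      (∀ (d : ℕ) (lvl : G → ℕ), (∀ j, 1 ≤ lvl j) → (∀ j, ∀ k ∈ pG j, lvl k + 1 ≤ lvl j) → lvl o ≤ d → C.Depth d) ∧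
      (∀ (x : I → Bool) (v : G → Bool), Eqs kind pI pG x v → (C.Acc x ↔ v o = true)) := by
  obtain ⟨e, he⟩ := numbering ρ
  let C : Circ I :=
    { m := Fintype.card G
      kind := fun j => kind (e.symm j)
      predIn := fun j => pI (e.symm j)
      predG := fun j => (pG (e.symm j)).map e.toEmbedding
      o := e o
      acyclic := by
        intro j k hk
        obtain ⟨k', hk', rfl⟩ := mem_map.1 hk
        have := he k' (e.symm j) (hρ _ _ hk')
        rw [Equiv.apply_symm_apply] at this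
        exact this }
  refine ⟨C, rfl, ?_, ?_, ?_⟩
  · intro h1 h2
    refine ⟨fun j hj => ?_, fun j => ?_⟩
    · show (pI (e.symm j)).card + ((pG (e.symm j)).map e.toEmbedding).card = 1
      rw [card_map]
      exact h1 _ hj
    · show 1 ≤ (pI (e.symm j)).card + ((pG (e.symm j)).map e.toEmbedding).card
      rw [card_map]
      exact h2 _
  · intro d lvl h1 h2 h3
    refine ⟨fun j => lvl (e.symm j), fun j => h1 _, fun j k hk => ?_, ?_⟩
    · obtain ⟨k', hk', rfl⟩ := mem_map.1 hk
      show lvl (e.symm (e k')) + 1 ≤ lvl (e.symm j)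
      rw [Equiv.symm_apply_apply]
      exact h2 _ _ hk'
    · show lvl (e.symm (e o)) ≤ d
      rw [Equiv.symm_apply_apply]
      exact h3
  · intro x v hv
    have hval : C.Val x (fun j => v (e.symm j)) := by
      intro j
      obtain ⟨a, b, c⟩ := hv (e.symm j)
      have hex : (∃ k ∈ C.predG j, v (e.symm k) = true) ↔ ∃ k ∈ pG (e.symm j), v k = true := by
        constructor
        · rintro ⟨k, hk, hk2⟩
          obtain ⟨k', hk', rfl⟩ := mem_map.1 hk
          refine ⟨k', hk', ?_⟩
          simpa using hk2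
        · rintro ⟨k, hk, hk2⟩
          exact ⟨e k, mem_map.2 ⟨k, hk, rfl⟩, by simpa using hk2⟩
      have hall : (∀ k ∈ C.predG j, v (e.symm k) = true) ↔ ∀ k ∈ pG (e.symm j), v k = true := by
        constructor
        · intro h k hk
          have := h (e k) (mem_map.2 ⟨k, hk, rfl⟩)
          simpa using this
        · intro h k hk
          obtain ⟨k', hk', rfl⟩ := mem_map.1 hk
          have := h k' hk'
          simpa using this
      refine ⟨fun hk => ?_, fun hk => ?_, fun hk => ?_⟩
      · rw [hex]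
        exact a hk
      · rw [hall]
        exact b hk
      · rw [hall]
        exact c hk
    rw [acc_of_val C x _ hval]
    show v (e.symm (e o)) = true ↔ _
    rw [Equiv.symm_apply_apply]

theorem depth_mono {I : Type} {C : Circ I} {d d' : ℕ} (h : C.Depth d) (hd : d ≤ d') : C.Depth d' := by
  obtain ⟨l, h1, h2, h3⟩ := h
  exact ⟨l, h1, h2, h3.trans hd⟩

open Classical in
/-- substitution -/
theorem comp {I J : Type} [Fintype I] [Fintype J] (D : Circ J) (T : J → Circ I) (hD : D.WF) (hT : ∀ c, (T c).WF)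
    (d e : ℕ) (hDd : D.Depth d) (hTe : ∀ c, (T c).Depth e) :
    ∃ C : Circ I, C.WF ∧ C.Depth (d + e) ∧ C.m = D.m + ∑ c, (T c).m ∧
      ∀ x, C.Acc x ↔ D.Acc (fun c => decide ((T c).Acc x)) := by
  let out : J ↪ (Σ c : J, Fin (T c).m) := ⟨fun c => ⟨c, (T c).o⟩, fun a b h => congrArg Sigma.fst h⟩
  let kind : Fin D.m ⊕ (Σ c : J, Fin (T c).m) → Fin 3 := Sum.elim D.kind (fun s => (T s.1).kind s.2)
  let pI : Fin D.m ⊕ (Σ c : J, Fin (T c).m) → Finset I := Sum.elim (fun _ => ∅) (fun s => (T s.1).predIn s.2)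
  let pG : Fin D.m ⊕ (Σ c : J, Fin (T c).m) → Finset (Fin D.m ⊕ (Σ c : J, Fin (T c).m)) :=
    Sum.elim (fun j => (D.predG j).disjSum ((D.predIn j).map out))
      (fun s => (((T s.1).predG s.2).map (Function.Embedding.sigmaMk s.1)).map Function.Embedding.inr)
  let M : ℕ := ∑ c, (T c).m
  let ρ : Fin D.m ⊕ (Σ c : J, Fin (T c).m) → ℕ := Sum.elim (fun j => M + j.1) (fun s => s.2.1)
  have hρ : ∀ g, ∀ k ∈ pG g, ρ k < ρ g := by
    rintro (j | ⟨c, j⟩) k hk
    · rcases mem_disjSum.1 hk with ⟨a, ha, rfl⟩ | ⟨a, ha, rfl⟩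
      · show M + a.1 < M + j.1
        have := D.acyclic j a ha
        have : a.1 < j.1 := this
        omega
      · obtain ⟨c, _, rfl⟩ := mem_map.1 ha
        show (T c).o.1 < M + j.1
        have h1 := (T c).o.2
        have h2 : (T c).m ≤ M := Finset.single_le_sum (f := fun c => (T c).m) (fun _ _ => Nat.zero_le _) (mem_univ c)
        omega
    · obtain ⟨s, hs, rfl⟩ := mem_map.1 hk
      obtain ⟨a, ha, rfl⟩ := mem_map.1 hs
      exact (T c).acyclic j a ha
  obtain ⟨C, hCm, hCW, hCD, hCA⟩ := mk kind pI pG (Sum.inl D.o) ρ hρ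
  refine ⟨C, ?_, ?_, ?_, ?_⟩
  · refine hCW ?_ ?_
    · rintro (j | ⟨c, j⟩) hk
      · show (∅ : Finset I).card + ((D.predG j).disjSum ((D.predIn j).map out)).card = 1
        rw [card_disjSum, card_map, card_empty]
        have := hD.1 j hk
        omega
      · show ((T c).predIn j).card + ((((T c).predG j).map (Function.Embedding.sigmaMk (β := fun c => Fin (T c).m) c)).map Function.Embedding.inr).card = 1
        rw [card_map, card_map]
        exact (hT c).1 j hk
    · rintro (j | ⟨c, j⟩)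
      · show 1 ≤ (∅ : Finset I).card + ((D.predG j).disjSum ((D.predIn j).map out)).card
        rw [card_disjSum, card_map, card_empty]
        have := hD.2 j
        omega
      · show 1 ≤ ((T c).predIn j).card + ((((T c).predG j).map (Function.Embedding.sigmaMk (β := fun c => Fin (T c).m) c)).map Function.Embedding.inr).card
        rw [card_map, card_map]
        exact (hT c).2 j
  · obtain ⟨l, l1, l2, l3⟩ := hDd
    choose m m1 m2 m3 using hTe
    refine hCD (d + e) (Sum.elim (fun j => e + l j) (fun s => m s.1 s.2)) ?_ ?_ ?_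
    · rintro (j | ⟨c, j⟩)
      · have := l1 j
        show 1 ≤ e + l j
        omega
      · exact m1 c j
    · rintro (j | ⟨c, j⟩) k hk
      · rcases mem_disjSum.1 hk with ⟨a, ha, rfl⟩ | ⟨a, ha, rfl⟩
        · show e + l a + 1 ≤ e + l j
          have := l2 j a ha
          omega
        · obtain ⟨c, _, rfl⟩ := mem_map.1 ha
          show m c (T c).o + 1 ≤ e + l j
          have h1 := m3 c
          have h2 := l1 j
          omega
      · obtain ⟨s, hs, rfl⟩ := mem_map.1 hk
        obtain ⟨a, ha, rfl⟩ := mem_map.1 hs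
        exact m2 c j a ha
    · show e + l D.o ≤ d + e
      omega
  · rw [hCm, Fintype.card_sum, Fintype.card_fin, Fintype.card_sigma]
    simp only [Fintype.card_fin]
  · intro x
    set y : J → Bool := fun c => decide ((T c).Acc x) with hy
    let vD : Fin D.m → Bool := fun j => D.net.val y (Fin.natAdd _ j)
    have hvD : D.Val y vD := D.exists_val y
    let vT : ∀ c, Fin (T c).m → Bool := fun c j => (T c).net.val x (Fin.natAdd _ j)
    have hvT : ∀ c, (T c).Val x (vT c) := fun c => (T c).exists_val x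
    have hout : ∀ c, (vT c (T c).o = true ↔ y c = true) := by
      intro c
      rw [hy]
      simp only [decide_eq_true_eq]
      exact (acc_of_val (T c) x _ (hvT c)).symm
    let v : Fin D.m ⊕ (Σ c : J, Fin (T c).m) → Bool := Sum.elim vD (fun s => vT s.1 s.2)
    have hEqs : Eqs kind pI pG x v := by
      rintro (j | ⟨c, j⟩)
      · obtain ⟨a1, a2, a3⟩ := hvD j
        have hex : ((∃ i ∈ pI (Sum.inl j), x i = true) ∨ ∃ k ∈ pG (Sum.inl j), v k = true) ↔
            ((∃ i ∈ D.predIn j, y i = true) ∨ ∃ k ∈ D.predG j, vD k = true) := by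
          constructor
          · rintro (⟨i, hi, _⟩ | ⟨k, hk, hk2⟩)
            · exact absurd hi (notMem_empty i)
            · rcases mem_disjSum.1 hk with ⟨a, ha, rfl⟩ | ⟨a, ha, rfl⟩
              · exact Or.inr ⟨a, ha, hk2⟩
              · obtain ⟨c, hc, rfl⟩ := mem_map.1 ha
                exact Or.inl ⟨c, hc, (hout c).1 hk2⟩
          · rintro (⟨i, hi, hi2⟩ | ⟨k, hk, hk2⟩)
            · exact Or.inr ⟨Sum.inr (out i), mem_disjSum.2 (Or.inr ⟨out i, mem_map.2 ⟨i, hi, rfl⟩, rfl⟩), (hout i).2 hi2⟩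
            · exact Or.inr ⟨Sum.inl k, mem_disjSum.2 (Or.inl ⟨k, hk, rfl⟩), hk2⟩
        have hall : ((∀ i ∈ pI (Sum.inl j), x i = true) ∧ ∀ k ∈ pG (Sum.inl j), v k = true) ↔
            ((∀ i ∈ D.predIn j, y i = true) ∧ ∀ k ∈ D.predG j, vD k = true) := by
          constructor
          · rintro ⟨_, h⟩
            refine ⟨fun i hi => ?_, fun k hk => ?_⟩
            · exact (hout i).1 (h (Sum.inr (out i)) (mem_disjSum.2 (Or.inr ⟨out i, mem_map.2 ⟨i, hi, rfl⟩, rfl⟩)))
            · exact h (Sum.inl k) (mem_disjSum.2 (Or.inl ⟨k, hk, rfl⟩))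
          · rintro ⟨h1, h2⟩
            refine ⟨fun i hi => absurd hi (notMem_empty i), fun k hk => ?_⟩
            rcases mem_disjSum.1 hk with ⟨a, ha, rfl⟩ | ⟨a, ha, rfl⟩
            · exact h2 a ha
            · obtain ⟨c, hc, rfl⟩ := mem_map.1 ha
              exact (hout c).2 (h1 c hc)
        refine ⟨fun hk => ?_, fun hk => ?_, fun hk => ?_⟩
        · rw [hex]; exact a1 hk
        · rw [hall]; exact a2 hk
        · rw [hall]; exact a3 hk
      · obtain ⟨a1, a2, a3⟩ := hvT c j
        have hex : (∃ k ∈ pG (Sum.inr ⟨c, j⟩), v k = true) ↔ (∃ k ∈ (T c).predG j, vT c k = true) := by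
          constructor
          · rintro ⟨k, hk, hk2⟩
            obtain ⟨s, hs, rfl⟩ := mem_map.1 hk
            obtain ⟨a, ha, rfl⟩ := mem_map.1 hs
            exact ⟨a, ha, hk2⟩
          · rintro ⟨k, hk, hk2⟩
            exact ⟨Sum.inr ⟨c, k⟩, mem_map.2 ⟨⟨c, k⟩, mem_map.2 ⟨k, hk, rfl⟩, rfl⟩, hk2⟩
        have hall : (∀ k ∈ pG (Sum.inr ⟨c, j⟩), v k = true) ↔ (∀ k ∈ (T c).predG j, vT c k = true) := by
          constructor
          · intro h k hk
            exact h (Sum.inr ⟨c, k⟩) (mem_map.2 ⟨⟨c, k⟩, mem_map.2 ⟨k, hk, rfl⟩, rfl⟩)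
          · intro h k hk
            obtain ⟨s, hs, rfl⟩ := mem_map.1 hk
            obtain ⟨a, ha, rfl⟩ := mem_map.1 hs
            exact h a ha
        refine ⟨fun hk => ?_, fun hk => ?_, fun hk => ?_⟩
        · rw [hex]; exact a1 hk
        · rw [hall]; exact a2 hk
        · rw [hall]; exact a3 hk
    rw [hCA x v hEqs, acc_of_val D y vD hvD]
    exact Iff.rfl

/-- one gate -/
theorem one {I : Type} [Fintype I] (κ : Fin 3) (S : Finset I) (hS : 1 ≤ S.card) (h2 : κ = 2 → S.card = 1) :
    ∃ C : Circ I, C.WF ∧ C.Depth 1 ∧ C.m = 1 ∧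
      (κ = 0 → ∀ x, C.Acc x ↔ ∃ i ∈ S, x i = true) ∧ (κ = 2 → ∀ x, C.Acc x ↔ ¬ ∀ i ∈ S, x i = true) := by
  classical
  obtain ⟨C, hCm, hCW, hCD, hCA⟩ := mk (I := I) (G := Unit) (fun _ => κ) (fun _ => S) (fun _ => ∅) () (fun _ => 0)
    (by intro g k hk; exact absurd hk (notMem_empty k))
  refine ⟨C, ?_, ?_, ?_, ?_, ?_⟩
  · refine hCW ?_ ?_
    · intro _ hk
      rw [card_empty, add_zero]
      exact h2 hk
    · intro _
      rw [card_empty, add_zero]
      exact hS
  · refine hCD 1 (fun _ => 1) (fun _ => le_rfl) ?_ le_rfl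
    intro g k hk
    exact absurd hk (notMem_empty k)
  · rw [hCm]; rfl
  · intro hκ x
    rw [hCA x (fun _ => decide (∃ i ∈ S, x i = true))]
    · simp
    · intro j
      subst hκ
      refine ⟨fun _ => ?_, fun h => absurd (show (0 : Fin 3) = 1 from h) (by decide),
        fun h => absurd (show (0 : Fin 3) = 2 from h) (by decide)⟩
      simp
  · intro hκ x
    rw [hCA x (fun _ => decide (¬ ∀ i ∈ S, x i = true))]
    · simp
    · intro j
      subst hκ
      refine ⟨fun h => absurd (show (2 : Fin 3) = 0 from h) (by decide),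
        fun h => absurd (show (2 : Fin 3) = 1 from h) (by decide), fun _ => ?_⟩
      simp

/-- the circuit which accepts nothing -/
theorem fls {I : Type} [Fintype I] (i₀ : I) : ∃ C : Circ I, C.WF ∧ C.Depth 2 ∧ C.m = 2 ∧ ∀ x, ¬ C.Acc x := by
  classical
  obtain ⟨C, hCm, hCW, hCD, hCA⟩ := mk (I := I) (G := Bool) (fun g => if g then 1 else 2) (fun _ => {i₀})
    (fun g => if g then {false} else ∅) true (fun g => if g then 1 else 0)
    (by
      intro g k hk
      cases g
      · simp at hk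
      · simp only [if_true, mem_singleton] at hk
        subst hk
        simp)
  refine ⟨C, ?_, ?_, ?_, ?_⟩
  · refine hCW ?_ ?_
    · intro g hk
      cases g
      · simp
      · simp at hk
    · intro g
      cases g <;> simp
  · refine hCD 2 (fun g => if g then 2 else 1) ?_ ?_ ?_
    · intro g
      cases g <;> simp
    · intro g k hk
      cases g
      · simp at hk
      · simp only [if_true, mem_singleton] at hk
        subst hk
        simp
    · simp
  · rw [hCm]; rfl
  · intro x
    rw [hCA x (fun g => if g then false else !(x i₀))]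
    · simp
    · intro g
      cases g
      · refine ⟨fun h => absurd h (by decide), fun h => absurd h (by decide), fun _ => ?_⟩
        simp
      · refine ⟨fun h => absurd h (by decide), fun _ => ?_, fun h => absurd h (by decide)⟩
        simp

theorem tree {I : Type} [Fintype I] (i₀ : I) (w : ℕ) (hw : 2 ≤ w) (d : ℕ) (f : (I → Bool) → Prop) (h : AC w d f) :
    ∃ C : Circ I, C.WF ∧ C.Depth (d + 1) ∧ C.m ≤ w ^ (2 * d) ∧ ∀ x, C.Acc x ↔ f x := by
  classical
  induction h with
  | inp d i =>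
    obtain ⟨C, h1, h2, h3, h4, _⟩ := one (I := I) 0 {i} (by simp) (by intro h; exact absurd h (by decide))
    refine ⟨C, h1, depth_mono h2 (by omega), ?_, fun x => ?_⟩
    · rw [h3]
      exact Nat.one_le_pow _ _ (by omega)
    · rw [h4 rfl x]
      simp
  | @neg d f _ ih =>
    obtain ⟨T, t1, t2, t3, t4⟩ := ih
    obtain ⟨N, n1, n2, n3, _, n5⟩ := one (I := Unit) 2 {()} (by simp) (by simp)
    obtain ⟨C, c1, c2, c3, c4⟩ := comp N (fun _ => T) n1 (fun _ => t1) 1 (d + 1) n2 (fun _ => t2)
    refine ⟨C, c1, depth_mono c2 (by omega), ?_, fun x => ?_⟩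
    · rw [c3, n3]
      simp only [univ_unique, sum_const, card_singleton, one_smul]
      have e1 : w ^ (2 * (d + 1)) = w ^ (2 * d) * (w * w) := by ring
      have e2 : 1 ≤ w ^ (2 * d) := Nat.one_le_pow _ _ (by omega)
      have e3 : w ^ (2 * d) * 4 ≤ w ^ (2 * d) * (w * w) := Nat.mul_le_mul_left _ (by nlinarith)
      rw [e1]
      omega
    · rw [c4 x, n5 rfl]
      simp [t4 x]
  | @ex d k f hk _ ih =>
    rcases Nat.eq_zero_or_pos k with h0 | h0
    · subst h0
      obtain ⟨C, c1, c2, c3, c4⟩ := fls i₀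
      refine ⟨C, c1, depth_mono c2 (by omega), ?_, fun x => ?_⟩
      · rw [c3]
        have e1 : w ^ (2 * (d + 1)) = w ^ (2 * d) * (w * w) := by ring
        have e2 : 1 ≤ w ^ (2 * d) := Nat.one_le_pow _ _ (by omega)
        rw [e1]
        nlinarith
      · refine ⟨fun h => absurd h (c4 x), ?_⟩
        rintro ⟨j, _⟩
        exact j.elim0
    · choose T t1 t2 t3 t4 using ih
      obtain ⟨N, n1, n2, n3, n4, _⟩ := one (I := Fin k) 0 univ (by rw [card_univ, Fintype.card_fin]; exact h0)
        (by intro h; exact absurd h (by decide))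
      obtain ⟨C, c1, c2, c3, c4⟩ := comp N T n1 t1 1 (d + 1) n2 t2
      refine ⟨C, c1, depth_mono c2 (by omega), ?_, fun x => ?_⟩
      · rw [c3, n3]
        have hs : ∑ c, (T c).m ≤ w * w ^ (2 * d) := by
          calc ∑ c, (T c).m ≤ ∑ _c : Fin k, w ^ (2 * d) := Finset.sum_le_sum fun c _ => t3 c
            _ = k * w ^ (2 * d) := by simp
            _ ≤ w * w ^ (2 * d) := Nat.mul_le_mul_right _ hk
        have e1 : w ^ (2 * (d + 1)) = w ^ (2 * d) * (w * w) := by ring
        have e2 : 1 ≤ w ^ (2 * d) := Nat.one_le_pow _ _ (by omega)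
        rw [e1]
        have e3 : w * w ^ (2 * d) + 1 ≤ w ^ (2 * d) * (w * w) := by
          have : 1 ≤ w * w ^ (2 * d) := by nlinarith
          nlinarith
        omega
      · rw [c4 x, n4 rfl]
        simp [t4]

open Classical in
theorem t_COMP : S_COMP := by
  intro d₀
  refine ⟨d₀ + 2, 2 * d₀, ?_⟩
  intro n d w β _ _ D hDW hDd hw F hF
  have i₀ : Cl n := ⟨∅, by simp⟩
  choose T t1 t2 t3 t4 using fun (b : β) (c : Cl n) => tree i₀ w hw d₀ (F b c) (hF b c)
  choose E e1 e2 e3 e4 using fun b : β => comp D (T b) hDW (t1 b) d (d₀ + 1) hDd (t2 b)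
  obtain ⟨N, n1, n2, n3, n4, _⟩ := one (I := β) 0 univ (by rw [card_univ]; exact Fintype.card_pos)
    (by intro h; exact absurd h (by decide))
  obtain ⟨C, c1, c2, c3, c4⟩ := comp N E n1 e1 1 (d + (d₀ + 1)) n2 e2
  refine ⟨C, c1, depth_mono c2 (by omega), ?_, fun x => ?_⟩
  · rw [c3, n3]
    have hs : ∑ b, (E b).m ≤ Fintype.card β * (D.m + Fintype.card (Cl n) * w ^ (2 * d₀)) := by
      calc ∑ b, (E b).m ≤ ∑ _b : β, (D.m + Fintype.card (Cl n) * w ^ (2 * d₀)) := by
            refine Finset.sum_le_sum fun b _ => ?_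
            rw [e3 b]
            refine Nat.add_le_add_left ?_ _
            calc ∑ c, (T b c).m ≤ ∑ _c : Cl n, w ^ (2 * d₀) := Finset.sum_le_sum fun c _ => t3 b c
              _ = Fintype.card (Cl n) * w ^ (2 * d₀) := by simp
        _ = Fintype.card β * (D.m + Fintype.card (Cl n) * w ^ (2 * d₀)) := by simp
    omega
  · rw [c4 x, n4 rfl]
    simp only [mem_univ, true_and, decide_eq_true_eq]
    refine exists_congr fun b => ?_
    rw [e4 b x]
    have : (fun c => decide ((T b c).Acc x)) = (fun c => decide (F b c x)) := by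
      funext c
      exact decide_eq_decide.2 (t4 b c x)
    rw [this]

end Pool.Agent.J4H21.SP
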